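import Pool.Agent.Run7.h404.FL.Iface

/-!
# Piece REF of the project FL (interface: `Pool.Agent.Run7.h404.FL.Iface`): the reference cochain
-/

set_option autoImplicit false

namespace Run7.h617.FL

open Set Topology Filter
open Run7.h404.FL

/-- Local monotonicity on an interval. -/
lemma le_of_local {h : ℝ → ℝ} {a b : ℝ} (hab : a ≤ b)
    (hl : ∀ t₀ ∈ Icc a b, ∃ δ > 0, ∀ s t, |s - t₀| < δ → |t - t₀| < δ → s ≤ t → h s ≤ h t) :
    h a ≤ h b := by
  choose δ hδ hd using fun t₀ : Icc a b => hl t₀ t₀.2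
  obtain ⟨t, ht0, htm, ⟨m, hm⟩, hc⟩ := exists_monotone_Icc_subset_open_cover_Icc (h := hab)
    (c := fun t₀ : Icc a b => {s : Icc a b | |(s : ℝ) - t₀| < δ t₀})
    (fun t₀ => isOpen_lt ((continuous_subtype_val.sub continuous_const).abs) continuous_const)
    (by
      intro s _
      refine mem_iUnion.2 ⟨s, ?_⟩
      change |(s : ℝ) - s| < δ s
      rw [sub_self, abs_zero]
      exact hδ s)
  have key : ∀ n, h a ≤ h (t n) := by
    intro n
    induction n with
    | zero => rw [ht0]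
    | succ n ih =>
      obtain ⟨i, hi⟩ := hc n
      have h1 : t n ∈ Icc (t n) (t (n + 1)) := ⟨le_rfl, htm (Nat.le_succ n)⟩
      have h2 : t (n + 1) ∈ Icc (t n) (t (n + 1)) := ⟨htm (Nat.le_succ n), le_rfl⟩
      exact ih.trans (hd i _ _ (hi h1) (hi h2) (htm (Nat.le_succ n)))
  have h1 := key m
  rwa [hm m le_rfl] at h1

section flow

variable {Q : Type} [MetricSpace Q] {Φ : ℝ → E5 → E5} {p : E5 → Q}

lemma cont_orb (hF : Fl Φ p) (y : E5) : Continuous fun t => Φ t y :=
  hF.cont.comp (continuous_id.prodMk continuous_const)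

lemma cont_at (hF : Fl Φ p) (t : ℝ) : Continuous (Φ t) :=
  hF.cont.comp (continuous_const.prodMk continuous_id)

lemma p_orb (hF : Fl Φ p) (t : ℝ) (y : E5) : p (Φ t y) = p y :=
  ((hF.fib y (Φ t y)).2 ⟨t, rfl⟩).symm

end flow

/-- **REF** -/
theorem t_REF (hEMB : S_EMB) (hPRO : S_PRO) (hNEAR : S_NEAR) : S_REF := by
  classical
  intro Q _ _ Φ p hF x hx
  obtain ⟨T₀, hT₀, hxT⟩ : ∃ T₀ : ℝ, 0 < T₀ ∧ Φ T₀ x ≠ x := by
    obtain ⟨t, ht⟩ := hx
    rcases lt_trichotomy t 0 with h | h | h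
    · refine ⟨-t, by linarith, fun h1 => ht ?_⟩
      have h2 : Φ t (Φ (-t) x) = x := by rw [← hF.add, add_neg_cancel, hF.zero]
      rwa [h1] at h2
    · exact absurd (by rw [h, hF.zero]) ht
    · exact ⟨t, h, ht⟩
  let u : E5 → ℝ := fun y => ∫ s in (0 : ℝ)..T₀, ‖Φ s y - x‖
  have hun : Continuous (fun z : E5 × ℝ => ‖Φ z.2 z.1 - x‖) :=
    ((hF.cont.comp (continuous_snd.prodMk continuous_fst)).sub continuous_const).norm
  have hu : Continuous u :=
    intervalIntegral.continuous_parametric_intervalIntegral_of_continuous' hun 0 T₀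
  have hint : ∀ (y : E5) (a b : ℝ), IntervalIntegrable (fun s => ‖Φ s y - x‖) MeasureTheory.volume a b :=
    fun y a b => (((cont_orb hF y).sub continuous_const).norm).intervalIntegrable a b
  have hut : ∀ (t : ℝ) (y : E5), u (Φ t y) = ∫ s in t..(T₀ + t), ‖Φ s y - x‖ := by
    intro t y
    change ∫ s in (0 : ℝ)..T₀, ‖Φ s (Φ t y) - x‖ = _
    have h1 : ∀ s, ‖Φ s (Φ t y) - x‖ = ‖Φ (s + t) y - x‖ := fun s => by rw [hF.add]
    simp only [h1]
    rw [intervalIntegral.integral_comp_add_right (fun s => ‖Φ s y - x‖) t, zero_add]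
  -- the derivative
  let D : ℝ × E5 → ℝ := fun z => ‖Φ (T₀ + z.1) z.2 - x‖ - ‖Φ z.1 z.2 - x‖
  have hD : Continuous D := by
    refine Continuous.sub ?_ ?_
    · exact ((hF.cont.comp ((continuous_const.add continuous_fst).prodMk continuous_snd)).sub
        continuous_const).norm
    · exact (hF.cont.sub continuous_const).norm
  have hD0 : 0 < D (0, x) := by
    change 0 < ‖Φ (T₀ + 0) x - x‖ - ‖Φ 0 x - x‖
    rw [add_zero, hF.zero, sub_self, norm_zero, sub_zero, norm_pos_iff, sub_ne_zero]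
    exact hxT
  obtain ⟨ε₀, hε₀, hDb⟩ := Metric.isOpen_iff.1 (isOpen_lt continuous_const hD) (0, x) hD0
  have hDp : ∀ (t : ℝ) (y : E5), |t| < ε₀ → dist y x < ε₀ → 0 < D (t, y) := by
    intro t y ht hy
    apply hDb
    rw [Metric.mem_ball, Prod.dist_eq, max_lt_iff]
    refine ⟨?_, hy⟩
    rw [Real.dist_eq, sub_zero]
    exact ht
  -- monotonicity of u along short orbits
  have hmono : ∀ (y : E5), dist y x < ε₀ → ∀ s t : ℝ, |s| < ε₀ → |t| < ε₀ → s < t →
      u (Φ s y) < u (Φ t y) := by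
    intro y hy s t hs ht hst
    have h1 : u (Φ t y) - u (Φ s y) = ∫ r in s..t, D (r, y) := by
      rw [hut, hut]
      have h2 : (∫ r in s..t, D (r, y)) = (∫ r in s..t, ‖Φ (T₀ + r) y - x‖) -
          ∫ r in s..t, ‖Φ r y - x‖ := by
        refine intervalIntegral.integral_sub ?_ (hint y s t)
        exact (((hF.cont.comp ((continuous_const.add continuous_id).prodMk continuous_const)).sub
          continuous_const).norm).intervalIntegrable s t
      have h3 : (∫ r in s..t, ‖Φ (T₀ + r) y - x‖) = ∫ r in (T₀ + s)..(T₀ + t), ‖Φ r y - x‖ :=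
        intervalIntegral.integral_comp_add_left (fun r => ‖Φ r y - x‖) T₀
      rw [h2, h3]
      have h4 := intervalIntegral.integral_add_adjacent_intervals (hint y t (T₀ + s)) (hint y (T₀ + s) (T₀ + t))
      have h5 := intervalIntegral.integral_add_adjacent_intervals (hint y s t) (hint y t (T₀ + s))
      linarith
    have h2 : 0 < ∫ r in s..t, D (r, y) := by
      refine intervalIntegral.intervalIntegral_pos_of_pos_on ?_ ?_ hst
      · exact (hD.comp (continuous_id.prodMk continuous_const)).intervalIntegrable s t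
      · intro r hr
        refine hDp r y ?_ hy
        rw [abs_lt] at hs ht ⊢
        exact ⟨by linarith [hr.1], by linarith [hr.2]⟩
    linarith
  -- the neighbourhood V
  obtain ⟨U, hU, hUe⟩ := hEMB Q Φ p hF x ε₀ hε₀
  obtain ⟨ρ', hρ', hρU⟩ := Metric.mem_nhds_iff.1 hU
  let ρ : ℝ := min (ρ' / 2) (ε₀ / 2)
  have hρ : 0 < ρ := by positivity
  have hρ1 : ρ < ρ' := lt_of_le_of_lt (min_le_left _ _) (by linarith)
  have hρ2 : ρ < ε₀ := lt_of_le_of_lt (min_le_right _ _) (by linarith)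
  let V : Set E5 := Metric.ball x ρ
  have hux : ∀ y ∈ Metric.sphere x ρ, p y = p x → u y ≠ u x := by
    intro y hy hpy h
    obtain ⟨t, ht, hyt⟩ := hUe y (hρU (by
      rw [Metric.mem_ball, Metric.mem_sphere.1 hy]; exact hρ1)) hpy
    have hx0 : dist x x < ε₀ := by rw [dist_self]; exact hε₀
    rcases lt_trichotomy t 0 with h1 | h1 | h1
    · have h2 := hmono x hx0 t 0 ht (by rw [abs_zero]; exact hε₀) h1
      rw [← hyt, hF.zero] at h2
      exact absurd h h2.ne
    · rw [h1, hF.zero] at hyt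
      rw [hyt, Metric.mem_sphere, dist_self] at hy
      exact absurd hy hρ.ne
    · have h2 := hmono x hx0 0 t (by rw [abs_zero]; exact hε₀) ht h1
      rw [← hyt, hF.zero] at h2
      exact absurd h h2.ne'
  obtain ⟨B₀, hB₀, hB₀s⟩ := (hNEAR Q Φ p hF).1 (Metric.sphere x ρ ∩ {y | u y = u x}) ∅ (p x)
    ((isCompact_sphere x ρ).inter_right (isClosed_eq hu continuous_const)) isOpen_empty
    (fun y hy hpy => absurd hy.2 (hux y hy.1 hpy))
  -- the size of the orbit segments
  have hVopen : IsOpen {z : ℝ × E5 | Φ z.1 z.2 ∈ V} := Metric.isOpen_ball.preimage hF.cont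
  obtain ⟨ε₁, hε₁, hVb⟩ := Metric.isOpen_iff.1 hVopen (0, x) (by
    change Φ 0 x ∈ V
    rw [hF.zero]
    exact Metric.mem_ball_self hρ)
  let ε' : ℝ := min (ε₁ / 2) (ε₀ / 2)
  have hε' : 0 < ε' := by positivity
  have hε'1 : ε' < ε₁ := lt_of_le_of_lt (min_le_left _ _) (by linarith)
  have hε'0 : ε' < ε₀ := lt_of_le_of_lt (min_le_right _ _) (by linarith)
  have hVt : ∀ (t : ℝ) (y : E5), |t| ≤ ε' → dist y x < ε₁ → Φ t y ∈ V := by
    intro t y ht hy
    have : (t, y) ∈ {z : ℝ × E5 | Φ z.1 z.2 ∈ V} := by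
      apply hVb
      rw [Metric.mem_ball, Prod.dist_eq, max_lt_iff]
      refine ⟨?_, hy⟩
      rw [Real.dist_eq, sub_zero]
      exact ht.trans_lt hε'1
    exact this
  let V₁ : Set E5 := Metric.ball x ε₁ ∩ {y | u (Φ (-ε') y) < u x} ∩ {y | u x < u (Φ ε' y)}
  have hV₁o : IsOpen V₁ :=
    (Metric.isOpen_ball.inter (isOpen_lt (hu.comp (cont_at hF _)) continuous_const)).inter
      (isOpen_lt continuous_const (hu.comp (cont_at hF _)))
  have hV₁x : x ∈ V₁ := by
    have hx0 : dist x x < ε₀ := by rw [dist_self]; exact hε₀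
    have h0 : |(0 : ℝ)| < ε₀ := by rw [abs_zero]; exact hε₀
    have he : |ε'| < ε₀ := by rw [abs_of_pos hε']; exact hε'0
    have he' : |-ε'| < ε₀ := by rw [abs_neg]; exact he
    refine ⟨⟨Metric.mem_ball_self hε₁, ?_⟩, ?_⟩
    · have h1 := hmono x hx0 (-ε') 0 he' h0 (by linarith)
      rw [hF.zero] at h1
      exact h1
    · have h1 := hmono x hx0 0 ε' h0 he hε'
      rw [hF.zero] at h1
      exact h1
  -- the cochain
  let χ : E5 → ℝ := fun y => if u x ≤ u y then 1 else 0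
  let c : E5 → E5 → ℝ := fun y z => if y ∈ V ∧ z ∈ V then χ z - χ y else 0
  have hcV : ∀ y ∈ V, ∀ z ∈ V, c y z = χ z - χ y := fun y hy z hz => if_pos ⟨hy, hz⟩
  let B : Set Q := B₀ ∩ p '' V₁
  have hB : B ∈ 𝓝 (p x) := inter_mem hB₀ ((hF.popen _ hV₁o).mem_nhds ⟨x, hV₁x, rfl⟩)
  have hZ : ∀ y, y ∉ V → p y ∈ B → Z1 c y := by
    intro y hy hpy
    rcases lt_or_ge ρ (dist y x) with h | h
    · refine ⟨(Metric.closedBall x ρ)ᶜ, Metric.isClosed_closedBall.isOpen_compl.mem_nhds ?_, ?_⟩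
      · intro h1
        exact absurd (Metric.mem_closedBall.1 h1) (not_le.2 h)
      · intro a ha b hb
        refine if_neg fun h1 => ha ?_
        exact Metric.ball_subset_closedBall h1.1
    · have h1 : dist y x = ρ := le_antisymm h (not_lt.1 fun h2 => hy (Metric.mem_ball.2 h2))
      have h2 : u y ≠ u x := fun h2 => hB₀s y ⟨Metric.mem_sphere.2 h1, h2⟩ hpy.1
      rcases lt_or_gt_of_ne h2 with h3 | h3
      · refine ⟨{z | u z < u x}, (isOpen_lt hu continuous_const).mem_nhds h3, ?_⟩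
        intro a ha b hb
        by_cases h4 : a ∈ V ∧ b ∈ V
        · rw [hcV a h4.1 b h4.2]
          have h5 : χ a = 0 := if_neg (not_le.2 ha)
          have h6 : χ b = 0 := if_neg (not_le.2 hb)
          rw [h5, h6, sub_zero]
        · exact if_neg h4
      · refine ⟨{z | u x < u z}, (isOpen_lt continuous_const hu).mem_nhds h3, ?_⟩
        intro a ha b hb
        by_cases h4 : a ∈ V ∧ b ∈ V
        · rw [hcV a h4.1 b h4.2]
          have h5 : χ a = 1 := if_pos (le_of_lt ha)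
          have h6 : χ b = 1 := if_pos (le_of_lt hb)
          rw [h5, h6, sub_self]
        · exact if_neg h4
  refine ⟨B, hB, c, ?_, ⟨Metric.closedBall x ρ, isCompact_closedBall x ρ, fun y hy hpy =>
    hZ y (fun h => hy (Metric.ball_subset_closedBall h)) hpy⟩, ?_⟩
  · intro y hpy
    by_cases hy : y ∈ V
    · refine ⟨V, Metric.isOpen_ball.mem_nhds hy, fun a ha b hb d hd => ?_⟩
      unfold dd
      rw [hcV b hb d hd, hcV a ha d hd, hcV a ha b hb]
      ring
    · obtain ⟨W, hW, hWc⟩ := hZ y hy hpy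
      refine ⟨W, hW, fun a ha b hb d hd => ?_⟩
      unfold dd
      rw [hWc b hb d hd, hWc a ha d hd, hWc a ha b hb]
      ring
  · rintro q hq ⟨g, ⟨K', hK', hgK⟩, hg⟩
    obtain ⟨y, hy, rfl⟩ := hq.2
    let h : ℝ → ℝ := fun t => g (Φ t y)
    -- the orbit in V
    have hVloc : ∀ t₀ : ℝ, Φ t₀ y ∈ V → ∃ δ > 0, ∀ s t, |s - t₀| < δ → |t - t₀| < δ →
        Φ s y ∈ V ∧ Φ t y ∈ V ∧ h t - h s = χ (Φ t y) - χ (Φ s y) := by
      intro t₀ hV₀
      obtain ⟨W, hW, hWc⟩ := hg (Φ t₀ y) (p_orb hF t₀ y)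
      have h1 : (fun t => Φ t y) ⁻¹' (W ∩ V) ∈ 𝓝 t₀ :=
        (cont_orb hF y).continuousAt.preimage_mem_nhds
          (inter_mem hW (Metric.isOpen_ball.mem_nhds hV₀))
      obtain ⟨δ, hδ, hδs⟩ := Metric.mem_nhds_iff.1 h1
      refine ⟨δ, hδ, fun s t hs ht => ?_⟩
      have hs' : Φ s y ∈ W ∩ V := hδs (by rw [Metric.mem_ball, Real.dist_eq]; exact hs)
      have ht' : Φ t y ∈ W ∩ V := hδs (by rw [Metric.mem_ball, Real.dist_eq]; exact ht)
      refine ⟨hs'.2, ht'.2, ?_⟩
      have h2 := hWc (Φ s y) hs'.1 (Φ t y) ht'.1 (p_orb hF s y) (p_orb hF t y)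
      rw [hcV _ hs'.2 _ ht'.2] at h2
      exact h2.symm
    have hmonoh : ∀ a b : ℝ, a ≤ b → h a ≤ h b := by
      intro a b hab
      refine le_of_local hab fun t₀ _ => ?_
      by_cases hV₀ : Φ t₀ y ∈ V
      · obtain ⟨δ, hδ, hδs⟩ := hVloc t₀ hV₀
        refine ⟨min δ ε₀, lt_min hδ hε₀, fun s t hs ht hst => ?_⟩
        obtain ⟨-, -, h1⟩ := hδs s t (hs.trans_le (min_le_left _ _)) (ht.trans_le (min_le_left _ _))
        have h2 : u (Φ s y) ≤ u (Φ t y) := by
          rcases hst.eq_or_lt with h3 | h3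
          · rw [h3]
          · have h4 := hmono (Φ t₀ y) ((Metric.mem_ball.1 hV₀).trans hρ2) (s - t₀) (t - t₀)
              (hs.trans_le (min_le_right _ _)) (ht.trans_le (min_le_right _ _)) (by linarith)
            rw [← hF.add, ← hF.add, sub_add_cancel, sub_add_cancel] at h4
            exact h4.le
        have h3 : χ (Φ s y) ≤ χ (Φ t y) := by
          change (if u x ≤ u (Φ s y) then (1 : ℝ) else 0) ≤ if u x ≤ u (Φ t y) then 1 else 0
          by_cases h4 : u x ≤ u (Φ s y)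
          · rw [if_pos h4, if_pos (h4.trans h2)]
          · rw [if_neg h4]
            split_ifs
            · exact zero_le_one
            · exact le_rfl
        linarith
      · obtain ⟨W, hW, hWc⟩ := hZ (Φ t₀ y) hV₀ (by rw [p_orb hF]; exact hq)
        obtain ⟨W', hW', hWc'⟩ := hg (Φ t₀ y) (p_orb hF t₀ y)
        have h1 : (fun t => Φ t y) ⁻¹' (W ∩ W') ∈ 𝓝 t₀ :=
          (cont_orb hF y).continuousAt.preimage_mem_nhds (inter_mem hW hW')
        obtain ⟨δ, hδ, hδs⟩ := Metric.mem_nhds_iff.1 h1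
        refine ⟨δ, hδ, fun s t hs ht _ => ?_⟩
        have hs' : Φ s y ∈ W ∩ W' := hδs (by rw [Metric.mem_ball, Real.dist_eq]; exact hs)
        have ht' : Φ t y ∈ W ∩ W' := hδs (by rw [Metric.mem_ball, Real.dist_eq]; exact ht)
        have h2 := hWc' (Φ s y) hs'.2 (Φ t y) ht'.2 (p_orb hF s y) (p_orb hF t y)
        rw [hWc _ hs'.1 _ ht'.1] at h2
        change g (Φ s y) ≤ g (Φ t y)
        linarith
    -- the jump
    have hjump : h ε' - h (-ε') = 1 := by
      let k : ℝ → ℝ := fun t => h t - χ (Φ t y)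
      have hk : ∀ t₀ ∈ Icc (-ε') ε', ∃ δ > 0, ∀ s t, |s - t₀| < δ → |t - t₀| < δ → k s = k t := by
        intro t₀ ht₀
        obtain ⟨δ, hδ, hδs⟩ := hVloc t₀ (hVt t₀ y (abs_le.2 ht₀) (Metric.mem_ball.1 hy.1.1))
        refine ⟨δ, hδ, fun s t hs ht => ?_⟩
        obtain ⟨-, -, h1⟩ := hδs s t hs ht
        change h s - χ (Φ s y) = h t - χ (Φ t y)
        linarith
      have h1 : k (-ε') ≤ k ε' := by
        refine le_of_local (h := k) (a := -ε') (b := ε') (by linarith) fun t₀ ht₀ => ?_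
        obtain ⟨δ, hδ, hδs⟩ := hk t₀ ht₀
        exact ⟨δ, hδ, fun s t hs ht _ => (hδs s t hs ht).le⟩
      have h2 : (fun t => -k t) (-ε') ≤ (fun t => -k t) ε' := by
        refine le_of_local (h := fun t => -k t) (a := -ε') (b := ε') (by linarith) fun t₀ ht₀ => ?_
        obtain ⟨δ, hδ, hδs⟩ := hk t₀ ht₀
        exact ⟨δ, hδ, fun s t hs ht _ => by
          rw [hδs s t hs ht]⟩
      have h3 : k (-ε') = k ε' := le_antisymm h1 (by
        have h4 : -k (-ε') ≤ -k ε' := h2
        linarith)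
      have h4 : χ (Φ ε' y) = 1 := if_pos (le_of_lt hy.2)
      have h5 : χ (Φ (-ε') y) = 0 := if_neg (not_le.2 hy.1.2)
      have h6 : h (-ε') - χ (Φ (-ε') y) = h ε' - χ (Φ ε' y) := h3
      rw [h4, h5] at h6
      linarith
    by_cases hC : Cp p (p y)
    · obtain ⟨τ, hτ, hτy⟩ := (hPRO Q Φ p hF y).1 hC
      have hper : ∀ (n : ℕ) (t : ℝ), h (t + n * τ) = h t := by
        intro n
        induction n with
        | zero => intro t; rw [Nat.cast_zero, zero_mul, add_zero]
        | succ n ih =>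
          intro t
          have h1 : t + ((n + 1 : ℕ) : ℝ) * τ = (t + n * τ) + τ := by push_cast; ring
          rw [h1]
          change g (Φ ((t + n * τ) + τ) y) = h t
          rw [hF.add, hτy]
          exact ih t
      obtain ⟨n, hn⟩ := exists_nat_ge (2 * ε' / τ)
      have h1 : 2 * ε' ≤ n * τ := by
        rwa [div_le_iff₀ hτ] at hn
      have h2 := hmonoh ε' (-ε' + n * τ) (by linarith)
      rw [hper] at h2
      linarith
    · obtain ⟨T, hT, hTK⟩ := ((hPRO Q Φ p hF y).2 hC).2 K' hK'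
      let T' := max T ε'
      have hT' : 0 < T' := lt_max_of_lt_left hT
      have hz : ∀ t : ℝ, T ≤ |t| → h t = 0 := fun t ht => hgK (Φ t y) (p_orb hF t y) (hTK t ht)
      have h1 : h T' = 0 := hz _ (by rw [abs_of_pos hT']; exact le_max_left _ _)
      have h2 : h (-T') = 0 := hz _ (by rw [abs_neg, abs_of_pos hT']; exact le_max_left _ _)
      have h3 := hmonoh (-T') (-ε') (by
        have := le_max_right T ε'
        change -(max T ε') ≤ -ε'
        linarith)
      have h4 := hmonoh ε' T' (le_max_right T ε')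
      linarith

end Run7.h617.FL
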